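import Mathlib

set_option autoImplicit false
open MeasureTheory ProbabilityTheory

namespace Pool.Agent.H46.GEPP

/-- The `k`-th stage of Gaussian elimination without row exchanges. -/
noncomputable def sc (g : ℕ → ℕ → ℝ) : ℕ → ℕ → ℕ → ℝ
  | 0, i, j => g i j
  | (k+1), i, j => sc g k i j - sc g k i k * sc g k k j / sc g k k k

theorem sc_sum (g : ℕ → ℕ → ℝ) (i j m : ℕ) :
    ∑ k ∈ Finset.range m, sc g k i k * sc g k k j / sc g k k k + sc g m i j = g i j := by
  induction m with
  | zero => simp [sc]
  | succ m ih =>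
    rw [Finset.sum_range_succ, ← ih]
    simp only [sc]
    ring

/-- The target at stage `k`. -/
structure Near (N : ℕ) (δ s : ℝ) (k : ℕ) (a : ℕ → ℕ → ℝ) : Prop where
  diag : ∀ i, k ≤ i → i < N → |a i i - 1| ≤ δ
  low : ∀ i j, k ≤ j → j < i → i ≤ N → |a i j + 1/2| ≤ δ
  up : ∀ i j, k ≤ i → i < j → j < N → |a i j| ≤ δ
  last : ∀ i, k ≤ i → i ≤ N → |a i N - s| ≤ δ * s

theorem ratio_bound {x y δ : ℝ} (hδ : 0 ≤ δ) (hδ' : δ ≤ 1/10) (hx : |x + 1/2| ≤ δ)
    (hy : |y - 1| ≤ δ) : |x / y + 1/2| ≤ 17/10 * δ := by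
  rw [abs_le] at hx hy
  have hy0 : 0 < y := by linarith
  rw [show x / y + 1/2 = (x + y / 2) / y by field_simp, abs_div, abs_of_pos hy0,
    div_le_iff₀ hy0, abs_le]
  constructor <;> nlinarith

theorem near_step {N : ℕ} {δ s : ℝ} {k : ℕ} {a : ℕ → ℕ → ℝ} (hδ : 0 ≤ δ) (hδ' : δ ≤ 1/10)
    (hs : 0 < s) (hk : k < N) (h : Near N δ s k a) :
    Near N (4 * δ) (s * (3/2)) (k+1) (fun i j => a i j - a i k * a k j / a k k) := by
  have hkk := h.diag k le_rfl hk
  have key : ∀ i j, k < i → i ≤ N → k < j → j < N → |a i k * a k j / a k k| ≤ δ := by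
    intro i j hi hiN hj hjN
    have h1 := ratio_bound hδ hδ' (h.low i k le_rfl hi hiN) hkk
    have h2 := h.up k j le_rfl hj hjN
    rw [show a i k * a k j / a k k = (a i k / a k k) * a k j by ring, abs_mul]
    have h3 : |a i k / a k k| ≤ 1 := by
      rw [abs_le] at h1 ⊢
      constructor <;> linarith
    calc |a i k / a k k| * |a k j| ≤ 1 * δ := by
          apply mul_le_mul h3 h2 (abs_nonneg _) zero_le_one
      _ = δ := one_mul _
  refine ⟨?_, ?_, ?_, ?_⟩
  · intro i hi hiN
    have h1 := h.diag i (by omega) hiN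
    have h2 := key i i (by omega) (by omega) (by omega) hiN
    rw [abs_le] at *
    constructor <;> linarith
  · intro i j hj hji hiN
    have h1 := h.low i j (by omega) hji hiN
    have h2 := key i j (by omega) (by omega) (by omega) (by omega)
    rw [abs_le] at *
    constructor <;> linarith
  · intro i j hi hij hjN
    have h1 := h.up i j (by omega) hij hjN
    have h2 := key i j (by omega) (by omega) (by omega) (by omega)
    rw [abs_le] at *
    constructor <;> linarith
  · intro i hi hiN
    have h1 := h.last i (by omega) hiN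
    have h2 := ratio_bound hδ hδ' (h.low i k le_rfl (by omega) hiN) hkk
    have h3 := h.last k le_rfl hk.le
    have e : a i N - a i k * a k N / a k k - s * (3/2)
        = (a i N - s) - (a i k / a k k + 1/2) * (a k N - s) - (a i k / a k k + 1/2) * s
          + (a k N - s) / 2 := by
      ring
    rw [e]
    have hp : |(a i k / a k k + 1/2) * (a k N - s)| ≤ 17/10 * δ * (δ * s) := by
      rw [abs_mul]
      exact mul_le_mul h2 h3 (abs_nonneg _) (by positivity)
    have hq : |(a i k / a k k + 1/2) * s| ≤ 17/10 * δ * s := by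
      rw [abs_mul, abs_of_pos hs]
      exact mul_le_mul_of_nonneg_right h2 hs.le
    have hr : 17/10 * δ * (δ * s) ≤ 17/100 * (δ * s) := by
      have : 17/10 * δ ≤ 17/100 := by linarith
      exact mul_le_mul_of_nonneg_right this (by positivity)
    have hds : 0 ≤ δ * s := by positivity
    rw [abs_le] at h1 h3 hp hq ⊢
    constructor <;> linarith

theorem near_all {N : ℕ} {δ : ℝ} {g : ℕ → ℕ → ℝ} (hδ : 0 ≤ δ) (hδ' : 4 ^ N * δ ≤ 1/10)
    (h : Near N δ 1 0 g) : ∀ k, k ≤ N → Near N (4 ^ k * δ) ((3/2) ^ k) k (sc g k) := by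
  intro k
  induction k with
  | zero =>
    intro _
    simpa [sc] using h
  | succ k ih =>
    intro hk
    have h1 := ih (by omega)
    have h2 : (4:ℝ) ^ k * δ ≤ 1/10 := by
      refine le_trans ?_ hδ'
      apply mul_le_mul_of_nonneg_right _ hδ
      exact pow_le_pow_right₀ (by norm_num) (by omega)
    have h3 := near_step (by positivity) h2 (by positivity) (by omega) h1
    have e1 : (4:ℝ) ^ (k+1) * δ = 4 * (4 ^ k * δ) := by ring
    have e2 : ((3:ℝ)/2) ^ (k+1) = (3/2) ^ k * (3/2) := by ring
    rw [e1, e2]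
    exact h3

theorem exists_LU {N : ℕ} {δ : ℝ} {g : ℕ → ℕ → ℝ} (hδ : 0 ≤ δ) (hδ' : 4 ^ N * δ ≤ 1/10)
    (h : Near N δ 1 0 g) :
    ∃ L U : Matrix (Fin (N+1)) (Fin (N+1)) ℝ,
      (∀ i j, i < j → L i j = 0) ∧ (∀ i, L i i = 1) ∧ (∀ i j, |L i j| ≤ 1) ∧
      (∀ i j, j < i → U i j = 0) ∧
      (Matrix.of fun (i j : Fin (N+1)) => g i j) = L * U ∧
      (3/2) ^ N / 2 ≤ |U (Fin.last N) (Fin.last N)| := by
  have hall := near_all hδ hδ' h
  have hpow : ∀ k, k ≤ N → (4:ℝ) ^ k * δ ≤ 1/10 := by
    intro k hk
    refine le_trans ?_ hδ'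
    apply mul_le_mul_of_nonneg_right _ hδ
    exact pow_le_pow_right₀ (by norm_num) hk
  have hpiv : ∀ k, k < N → sc g k k k ≠ 0 := by
    intro k hk
    have h1 := (hall k hk.le).diag k le_rfl hk
    have h2 := hpow k hk.le
    intro h0
    rw [h0] at h1
    norm_num at h1
    linarith
  let Lf : ℕ → ℕ → ℝ := fun i j => if i < j then 0 else if i = j then 1 else
    sc g j i j / sc g j j j
  let Uf : ℕ → ℕ → ℝ := fun i j => if j < i then 0 else sc g i i j
  refine ⟨Matrix.of fun i j => Lf i j, Matrix.of fun i j => Uf i j, ?_, ?_, ?_, ?_, ?_, ?_⟩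
  · intro i j hij
    have : (i:ℕ) < j := hij
    simp only [Lf, Matrix.of_apply, this, if_true]
  · intro i
    simp [Lf]
  · intro i j
    by_cases h1 : (i:ℕ) < j
    · simp only [Lf, Matrix.of_apply, h1, if_true, abs_zero]
      exact zero_le_one
    · by_cases h2 : (i:ℕ) = j
      · simp only [Lf, Matrix.of_apply, h2, lt_irrefl, if_false, if_true, abs_one, le_refl]
      · simp only [Matrix.of_apply, Lf, h1, h2, if_false]
        have hi : (i:ℕ) ≤ N := Nat.lt_succ_iff.mp i.2
        have hj : (j:ℕ) < N := by omega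
        have h3 := ratio_bound (by positivity) (hpow j hj.le)
          ((hall j hj.le).low i j le_rfl (by omega) hi) ((hall j hj.le).diag j le_rfl hj)
        have h4 := hpow j hj.le
        rw [abs_le] at h3 ⊢
        constructor <;> linarith
  · intro i j hij
    have : (j:ℕ) < i := hij
    simp only [Uf, Matrix.of_apply, this, if_true]
  · ext i j
    simp only [Matrix.mul_apply, Matrix.of_apply]
    rw [Fin.sum_univ_eq_sum_range (fun k => Lf i k * Uf k j) (N+1)]
    have hi : (i:ℕ) ≤ N := Nat.lt_succ_iff.mp i.2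
    have hj : (j:ℕ) ≤ N := Nat.lt_succ_iff.mp j.2
    generalize (i:ℕ) = i at *
    generalize (j:ℕ) = j at *
    have hm : ∀ m, m = min i j → ∑ k ∈ Finset.range (N+1), Lf i k * Uf k j
        = ∑ k ∈ Finset.range m, Lf i k * Uf k j + Lf i m * Uf m j := by
      intro m hm
      rw [← Finset.sum_range_succ]
      symm
      apply Finset.sum_subset
      · intro x hx
        simp only [Finset.mem_range] at *
        omega
      · intro x hx hx'
        simp only [Finset.mem_range] at *
        by_cases h1 : i < x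
        · simp [Lf, h1]
        · have h2 : j < x := by omega
          simp [Uf, h2]
    have hlow : ∀ m, m ≤ min i j → ∑ k ∈ Finset.range m, Lf i k * Uf k j
        = ∑ k ∈ Finset.range m, sc g k i k * sc g k k j / sc g k k k := by
      intro m hm
      apply Finset.sum_congr rfl
      intro k hk
      simp only [Finset.mem_range] at hk
      have h1 : ¬ i < k := by omega
      have h2 : ¬ i = k := by omega
      have h3 : ¬ j < k := by omega
      simp only [Lf, Uf, h1, h2, h3, if_false]
      ring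
    rcases le_or_gt i j with hij | hij
    · rw [hm i (by omega), hlow i (by omega)]
      have h3 : ¬ j < i := by omega
      have : Lf i i * Uf i j = sc g i i j := by
        simp [Lf, Uf, h3]
      rw [this, sc_sum]
    · rw [hm j (by omega), hlow j (by omega)]
      have h1 : ¬ i < j := by omega
      have h2 : ¬ i = j := by omega
      have : Lf i j * Uf j j = sc g j i j := by
        simp only [Lf, Uf, h1, h2, lt_irrefl, if_false]
        field_simp [hpiv j (by omega)]
      rw [this, sc_sum]
  · have h1 := (hall N le_rfl).last N le_rfl le_rfl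
    have h2 := hpow N le_rfl
    have h3 : (4:ℝ) ^ N * δ * (3/2) ^ N ≤ 1/10 * (3/2) ^ N :=
      mul_le_mul_of_nonneg_right h2 (by positivity)
    have h4 : (0:ℝ) < (3/2) ^ N := by positivity
    simp only [Matrix.of_apply, Uf, Fin.val_last, lt_irrefl, if_false]
    refine le_trans ?_ (le_abs_self _)
    rw [abs_le] at h1
    linarith

end Pool.Agent.H46.GEPP
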