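import Mathlib
import Pool.Agent.H46.GEPP

set_option autoImplicit false
open MeasureTheory ProbabilityTheory

namespace Pool.Agent.H46.GEPP

theorem pdf_lower {x : ℝ} (hx : |x| ≤ 2) : 1/20 ≤ gaussianPDFReal 0 1 x := by
  rw [gaussianPDFReal]
  have h1 : Real.sqrt (2 * Real.pi * ((1 : NNReal) : ℝ)) ≤ 252/100 := by
    rw [Real.sqrt_le_left (by norm_num)]
    have := Real.pi_lt_d2
    simp
    nlinarith
  have h2 : Real.exp (-(x - 0) ^ 2 / (2 * ((1 : NNReal) : ℝ))) ≥ Real.exp (-2) := by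
    apply Real.exp_le_exp.mpr
    simp
    rw [abs_le] at hx
    nlinarith
  have h3 : Real.exp (-2) ≥ 1/7.5 := by
    rw [Real.exp_neg, ge_iff_le, one_div]
    apply inv_anti₀ (Real.exp_pos _)
    have h := Real.exp_one_lt_d9
    have : Real.exp 2 = Real.exp 1 * Real.exp 1 := by rw [← Real.exp_add]; norm_num
    rw [this]
    nlinarith [Real.exp_pos 1]
  have h4 : (Real.sqrt (2 * Real.pi * ((1 : NNReal) : ℝ)))⁻¹ ≥ (252/100)⁻¹ := by
    apply inv_anti₀ _ h1
    apply Real.sqrt_pos.mpr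
    have := Real.pi_pos
    simp
    positivity
  calc (1:ℝ)/20 ≤ (252/100)⁻¹ * (1/7.5) := by norm_num
    _ ≤ _ := by
      apply mul_le_mul h4 (h3.trans h2) (by norm_num)
      exact le_trans (by norm_num) h4

theorem gauss_lower {a δ : ℝ} (ha : |a| ≤ 1) (_hδ : 0 ≤ δ) (hδ' : δ ≤ 1) :
    ENNReal.ofReal (δ/10) ≤ gaussianReal 0 1 (Set.Icc (a - δ) (a + δ)) := by
  rw [gaussianReal_apply 0 one_ne_zero]
  have h1 : ∫⁻ _ in Set.Icc (a - δ) (a + δ), ENNReal.ofReal (1/20) ≤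
      ∫⁻ x in Set.Icc (a - δ) (a + δ), gaussianPDF 0 1 x := by
    apply setLIntegral_mono (measurable_gaussianPDF 0 1)
    intro x hx
    rw [gaussianPDF]
    apply ENNReal.ofReal_le_ofReal
    apply pdf_lower
    rw [abs_le] at *
    constructor <;> linarith [hx.1, hx.2]
  refine le_trans ?_ h1
  rw [setLIntegral_const, Real.volume_Icc, ← ENNReal.ofReal_mul (by norm_num)]
  apply ENNReal.ofReal_le_ofReal
  linarith

/-- The target matrix. -/
noncomputable def tgt (N i j : ℕ) : ℝ :=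
  if j = N then 1 else if i = j then 1 else if j < i then -(1/2) else 0

theorem tgt_abs (N i j : ℕ) : |tgt N i j| ≤ 1 := by
  unfold tgt
  split_ifs <;> norm_num [abs_le]

theorem box_measure (N : ℕ) {δ : ℝ} (hδ : 0 ≤ δ) (hδ' : δ ≤ 1) :
    ENNReal.ofReal ((δ/10) ^ ((N+1)^2)) ≤
    (Measure.pi fun _ : Fin (N+1) => Measure.pi fun _ : Fin (N+1) => gaussianReal 0 1)
      (Set.univ.pi fun i : Fin (N+1) => Set.univ.pi fun j : Fin (N+1) =>
        Set.Icc (tgt N i j - δ) (tgt N i j + δ)) := by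
  rw [Measure.pi_pi]
  have h1 : ∀ i : Fin (N+1), ENNReal.ofReal ((δ/10) ^ (N+1)) ≤
      (Measure.pi fun _ : Fin (N+1) => gaussianReal 0 1)
        (Set.univ.pi fun j : Fin (N+1) => Set.Icc (tgt N i j - δ) (tgt N i j + δ)) := by
    intro i
    rw [Measure.pi_pi, ENNReal.ofReal_pow (by positivity)]
    calc ENNReal.ofReal (δ/10) ^ (N+1) = ∏ _j : Fin (N+1), ENNReal.ofReal (δ/10) := by
          simp
      _ ≤ _ := Finset.prod_le_prod' fun j _ => gauss_lower (tgt_abs _ _ _) hδ hδ'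
  calc ENNReal.ofReal ((δ/10) ^ ((N+1)^2)) = ∏ _i : Fin (N+1), ENNReal.ofReal ((δ/10) ^ (N+1)) := by
        rw [Finset.prod_const, Finset.card_univ, Fintype.card_fin,
          ← ENNReal.ofReal_pow (by positivity), ← pow_mul]
        ring_nf
    _ ≤ _ := Finset.prod_le_prod' fun i _ => h1 i

theorem near_of_box {N : ℕ} {δ : ℝ} {G : Fin (N+1) → Fin (N+1) → ℝ}
    (h : G ∈ (Set.univ.pi fun i : Fin (N+1) => Set.univ.pi fun j : Fin (N+1) =>
        Set.Icc (tgt N i j - δ) (tgt N i j + δ))) :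
    Near N δ 1 0 (fun i j => G (Fin.ofNat (N+1) i) (Fin.ofNat (N+1) j)) := by
  have h' : ∀ i j : ℕ, i ≤ N → j ≤ N →
      |G (Fin.ofNat (N+1) i) (Fin.ofNat (N+1) j) - tgt N i j| ≤ δ := by
    intro i j hi hj
    have h1 := h (Fin.ofNat (N+1) i) (Set.mem_univ _) (Fin.ofNat (N+1) j) (Set.mem_univ _)
    have e1 : ((Fin.ofNat (N+1) i : Fin (N+1)) : ℕ) = i := by
      simp [Fin.ofNat, Nat.mod_eq_of_lt (Nat.lt_succ_of_le hi)]
    have e2 : ((Fin.ofNat (N+1) j : Fin (N+1)) : ℕ) = j := by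
      simp [Fin.ofNat, Nat.mod_eq_of_lt (Nat.lt_succ_of_le hj)]
    simp only [e1, e2, Set.mem_Icc] at h1
    rw [abs_le]
    constructor <;> linarith [h1.1, h1.2]
  refine ⟨?_, ?_, ?_, ?_⟩
  · intro i _ hi
    have := h' i i (by omega) (by omega)
    rwa [tgt, if_neg (by omega), if_pos rfl] at this
  · intro i j _ hji hi
    have := h' i j (by omega) (by omega)
    rw [tgt, if_neg (by omega), if_neg (by omega), if_pos hji] at this
    simpa using this
  · intro i j _ hij hj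
    have := h' i j (by omega) (by omega)
    rw [tgt, if_neg (by omega), if_neg (by omega), if_neg (by omega)] at this
    simpa using this
  · intro i _ hi
    have := h' i N (by omega) le_rfl
    rw [tgt, if_pos rfl] at this
    simpa using this

theorem asymp (c₁ c₂ : ℝ) (hc : 0 < c₂) : ∃ N : ℕ,
    1 ≤ (3/2:ℝ) ^ N / (8 * ((N:ℝ) + 1) ^ c₁) ∧
    (2:ℝ) ^ (-(c₂ * ((3/2:ℝ) ^ N / (8 * ((N:ℝ) + 1) ^ c₁)))) <
      (((1/10) * (1/4:ℝ) ^ N) / 10) ^ ((N+1)^2) := by
  set d : ℕ := ⌈c₁⌉₊ with hd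
  have hlim := tendsto_pow_const_div_const_pow_of_one_lt (d + 3) (show (1:ℝ) < 3/2 by norm_num)
  have hlim' := hlim.comp (Filter.tendsto_add_atTop_nat 1)
  have hlog2 : 0 < Real.log 2 := Real.log_pos (by norm_num)
  have hlog100 : 0 < Real.log 100 := Real.log_pos (by norm_num)
  -- the small threshold
  set ε : ℝ := min (1/24) (c₂ * Real.log 2 / (24 * Real.log 100)) with hε
  have hεpos : 0 < ε := by
    apply lt_min (by norm_num)
    positivity
  have hev := hlim'.eventually (gt_mem_nhds hεpos)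
  obtain ⟨N, hN⟩ := hev.exists
  simp only [Function.comp_apply, Nat.cast_add, Nat.cast_one] at hN
  refine ⟨N, ?_⟩
  have hN1 : (1:ℝ) ≤ (N:ℝ) + 1 := by
    have : (0:ℝ) ≤ N := Nat.cast_nonneg N
    linarith
  have hpos : (0:ℝ) < (N:ℝ) + 1 := by linarith
  have h32 : (0:ℝ) < (3/2) ^ (N+1) := by positivity
  rw [div_lt_iff₀ h32] at hN
  have hrp : ((N:ℝ) + 1) ^ c₁ ≤ ((N:ℝ) + 1) ^ d := by
    rw [← Real.rpow_natCast]
    exact Real.rpow_le_rpow_of_exponent_le hN1 (Nat.le_ceil c₁)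
  have hrp0 : 0 < ((N:ℝ) + 1) ^ c₁ := Real.rpow_pos_of_pos hpos _
  set R : ℝ := (3/2:ℝ) ^ N / (8 * ((N:ℝ) + 1) ^ c₁) with hR
  -- R * (N+1)^(d) * 8 ≥ (3/2)^N
  have hR1 : ((N:ℝ)+1)^3 < ε * 12 * R := by
    have h1 : ((N:ℝ)+1)^(d+3) < ε * (3/2 * (3/2)^N) := by
      rw [pow_succ (3/2:ℝ) N] at hN
      linarith
    have h2 : (3/2:ℝ)^N = R * (8 * ((N:ℝ) + 1) ^ c₁) := by
      rw [hR]
      field_simp
    have h3 : R * (8 * ((N:ℝ) + 1) ^ c₁) ≤ R * (8 * ((N:ℝ) + 1) ^ d) := by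
      apply mul_le_mul_of_nonneg_left _ (by positivity)
      linarith
    have h4 : ((N:ℝ)+1)^(d+3) < ε * 12 * R * ((N:ℝ) + 1) ^ d := by
      calc ((N:ℝ)+1)^(d+3) < ε * (3/2 * (3/2)^N) := h1
        _ ≤ ε * (3/2 * (R * (8 * ((N:ℝ) + 1) ^ d))) := by
          apply mul_le_mul_of_nonneg_left _ hεpos.le
          rw [h2]
          linarith
        _ = _ := by ring
    rw [pow_add, mul_comm] at h4
    exact lt_of_mul_lt_mul_right h4 (by positivity)
  have hR0 : 0 < R := by positivity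
  have hcube : (1:ℝ) ≤ ((N:ℝ)+1)^3 := one_le_pow₀ hN1
  have hε1 : ε ≤ 1/24 := min_le_left _ _
  have hε2 : ε ≤ c₂ * Real.log 2 / (24 * Real.log 100) := min_le_right _ _
  constructor
  · by_contra hcon
    push Not at hcon
    have : ε * 12 * R ≤ 1/24 * 12 * 1 := by
      apply mul_le_mul _ hcon.le hR0.le (by norm_num)
      linarith
    linarith
  · -- take logarithms
    have hbase : (0:ℝ) < ((1/10) * (1/4:ℝ) ^ N) / 10 := by positivity
    rw [← Real.log_lt_log_iff (by positivity) (by positivity), Real.log_rpow (by norm_num),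
      Real.log_pow]
    have hlogb : -(((N:ℝ)+1) * Real.log 100) ≤ Real.log (((1/10) * (1/4:ℝ) ^ N) / 10) := by
      have : ((1/10) * (1/4:ℝ) ^ N) / 10 = (100 * 4 ^ N)⁻¹ := by
        rw [one_div_pow]
        field_simp
        norm_num
      rw [this, Real.log_inv, neg_le_neg_iff]
      rw [← Real.log_rpow (by norm_num)]
      apply Real.log_le_log (by positivity)
      rw [show ((N:ℝ)+1) = ((N+1 : ℕ) : ℝ) by push_cast; ring, Real.rpow_natCast]
      rw [pow_succ, mul_comm]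
      apply mul_le_mul_of_nonneg_right _ (by norm_num)
      exact pow_le_pow_left₀ (by norm_num) (by norm_num) _
    have h5 : ((N:ℝ)+1)^3 * Real.log 100 < c₂ * R * Real.log 2 := by
      have h6 : ε * 12 * R ≤ (c₂ * Real.log 2 / (24 * Real.log 100)) * 12 * R := by
        apply mul_le_mul_of_nonneg_right _ hR0.le
        linarith
      have h7 : (c₂ * Real.log 2 / (24 * Real.log 100)) * 12 * R * Real.log 100
          = c₂ * R * Real.log 2 / 2 := by
        field_simp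
        norm_num
      have h8 : ((N:ℝ)+1)^3 * Real.log 100 < ε * 12 * R * Real.log 100 :=
        mul_lt_mul_of_pos_right hR1 hlog100
      have h9 : ε * 12 * R * Real.log 100 ≤
          (c₂ * Real.log 2 / (24 * Real.log 100)) * 12 * R * Real.log 100 :=
        mul_le_mul_of_nonneg_right h6 hlog100.le
      have h10 : 0 < c₂ * R * Real.log 2 := by positivity
      linarith
    push_cast
    have h11 : ((N:ℝ)+1)^2 * Real.log (((1/10) * (1/4:ℝ) ^ N) / 10) ≥
        ((N:ℝ)+1)^2 * (-(((N:ℝ)+1) * Real.log 100)) :=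
      mul_le_mul_of_nonneg_left hlogb (by positivity)
    nlinarith [h11, h5]

end Pool.Agent.H46.GEPP
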